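import Mathlib
import Pool.Agent.H62.Per.Defs

/-! Module HAM1 of MP_588c6d_co (distinct perimeters): splitting lemma for vectors in general
position. -/

set_option autoImplicit false

open Finset

namespace Pool.Agent.H62.Per

theorem ham1_exists_f {d : ℕ} (v : Pl → Fin d → ℝ) (Z : Finset Pl) (hZ : Z.card < d) :
    ∃ f : Fin d → ℝ, f ≠ 0 ∧ ∀ z ∈ Z, sp f (v z) = 0 := by
  classical
  let T : (Fin d → ℝ) →ₗ[ℝ] (Z → ℝ) :=
    { toFun := fun f z => sp f (v z)
      map_add' := by
        intro f g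
        funext z
        simp [sp, add_mul, Finset.sum_add_distrib]
      map_smul' := by
        intro c f
        funext z
        simp [sp, Finset.mul_sum, mul_assoc] }
  have hk : LinearMap.ker T ≠ ⊥ := by
    apply LinearMap.ker_ne_bot_of_finrank_lt
    simpa using hZ
  obtain ⟨f, hf, hf0⟩ := (Submodule.ne_bot_iff _).1 hk
  refine ⟨f, hf0, ?_⟩
  intro z hz
  have := congrFun (LinearMap.mem_ker.1 hf) ⟨z, hz⟩
  simpa [T] using this

theorem ham1_exists_lam {d : ℕ} (X : Finset Pl) (v : Pl → Fin d → ℝ)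
    (hgp : ∀ S ⊆ X, S.card = d → LinearIndependent ℝ (fun s : S => v s))
    (W : Finset Pl) (hWX : W ⊆ X) (hW : W.card = d + 1) :
    ∃ l : Pl → ℝ, (∀ w ∈ W, l w ≠ 0) ∧ ∀ i, ∑ w ∈ W, l w * v w i = 0 := by
  classical
  let T : (W → ℝ) →ₗ[ℝ] (Fin d → ℝ) :=
    { toFun := fun c i => ∑ w : W, c w * v w i
      map_add' := by
        intro f g
        funext i
        simp [add_mul, Finset.sum_add_distrib]
      map_smul' := by
        intro c f
        funext i
        simp [Finset.mul_sum, mul_assoc] }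
  have hk : LinearMap.ker T ≠ ⊥ := by
    apply LinearMap.ker_ne_bot_of_finrank_lt
    simp [hW]
  obtain ⟨c, hc, hc0⟩ := (Submodule.ne_bot_iff _).1 hk
  let l : Pl → ℝ := fun w => if h : w ∈ W then c ⟨w, h⟩ else 0
  have hsum : ∀ i, ∑ w ∈ W, l w * v w i = 0 := by
    intro i
    have h1 := congrFun (LinearMap.mem_ker.1 hc) i
    have h2 : ∑ w ∈ W, l w * v w i = ∑ w : W, c w * v w i := by
      rw [← Finset.sum_coe_sort W]
      refine Finset.sum_congr rfl ?_
      intro w _
      simp [l]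
    rw [h2]
    simpa [T] using h1
  refine ⟨l, ?_, hsum⟩
  intro w0 hw0 hl0
  apply hc0
  have hcard : (W.erase w0).card = d := by rw [Finset.card_erase_of_mem hw0, hW]; rfl
  have hli := hgp (W.erase w0) ((Finset.erase_subset _ _).trans hWX) hcard
  rw [Fintype.linearIndependent_iff] at hli
  have hz : ∑ s : (W.erase w0 : Finset Pl), l s • v s = 0 := by
    funext i
    have h1 := hsum i
    rw [← Finset.add_sum_erase W _ hw0, hl0, zero_mul, zero_add] at h1
    rw [← Finset.sum_coe_sort (W.erase w0)] at h1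
    simpa [Finset.sum_apply] using h1
  have hall := hli (fun s => l s) hz
  funext w
  by_cases hw : (w : Pl) = w0
  · have : l w = c w := by simp [l]
    rw [← this, hw, hl0]; rfl
  · have h3 := hall ⟨w, Finset.mem_erase.2 ⟨hw, w.2⟩⟩
    have : l w = c w := by simp [l]
    rw [← this]
    exact h3

theorem ham1_sign {d : ℕ} (v : Pl → Fin d → ℝ) (W : Finset Pl) (l : Pl → ℝ)
    (hl : ∀ w ∈ W, l w ≠ 0) (hsum : ∀ i, ∑ w ∈ W, l w * v w i = 0) (x y : Pl) (hx : x ∈ W)
    (hy : y ∈ W) (hxy : x ≠ y) (f : Fin d → ℝ) (hf : ∀ z ∈ W, z ≠ x → z ≠ y → sp f (v z) = 0)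
    (hpos : 0 < sp f (v x) * sp f (v y)) : l x * l y < 0 := by
  classical
  have h1 : ∑ w ∈ W, l w * sp f (v w) = 0 := by
    have : ∑ w ∈ W, l w * sp f (v w) = ∑ i, f i * ∑ w ∈ W, l w * v w i := by
      simp only [sp, Finset.mul_sum]
      rw [Finset.sum_comm]
      refine Finset.sum_congr rfl fun i _ => Finset.sum_congr rfl fun w _ => ?_
      ring
    rw [this]
    simp [hsum]
  have h2 : ∑ w ∈ W, l w * sp f (v w) = l x * sp f (v x) + l y * sp f (v y) := by
    rw [← Finset.sum_subset (s₁ := {x, y})]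
    · rw [Finset.sum_pair hxy]
    · intro z hz
      simp only [Finset.mem_insert, Finset.mem_singleton] at hz
      rcases hz with rfl | rfl <;> assumption
    · intro z hz hz'
      simp only [Finset.mem_insert, Finset.mem_singleton, not_or] at hz'
      rw [hf z hz hz'.1 hz'.2, mul_zero]
  rw [h2] at h1
  have hyl := hl y hy
  have hb : sp f (v y) ≠ 0 := by
    rintro h
    rw [h, mul_zero] at hpos
    exact lt_irrefl _ hpos
  have h3 : (l x * l y) * (sp f (v x) * sp f (v y)) = - (l y * sp f (v y)) ^ 2 := by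
    have : l x * sp f (v x) = - (l y * sp f (v y)) := by linarith
    calc (l x * l y) * (sp f (v x) * sp f (v y))
        = (l x * sp f (v x)) * (l y * sp f (v y)) := by ring
      _ = - (l y * sp f (v y)) ^ 2 := by rw [this]; ring
  have h4 : 0 < (l y * sp f (v y)) ^ 2 := by positivity
  by_contra hcon
  push Not at hcon
  have : 0 ≤ (l x * l y) * (sp f (v x) * sp f (v y)) := mul_nonneg hcon hpos.le
  linarith

open Classical in
theorem ham1_opp {κ : Type} (W : Finset Pl) (χ : Pl → κ) (l : Pl → ℝ) (hl : ∀ w ∈ W, l w ≠ 0) :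
    2 * (W.offDiag.filter (fun s => χ s.1 = χ s.2 ∧ l s.1 * l s.2 < 0)).card ≤
      (W.offDiag.filter (fun s => χ s.1 = χ s.2)).card + W.card := by
  -- signs
  have hpsd : 0 ≤ ∑ s ∈ W ×ˢ W, (if χ s.1 = χ s.2 then
      ((SignType.sign (l s.1) : ℤ)) * (SignType.sign (l s.2) : ℤ) else 0) := by
    have h1 : ∑ s ∈ W ×ˢ W, (if χ s.1 = χ s.2 then
      ((SignType.sign (l s.1) : ℤ)) * (SignType.sign (l s.2) : ℤ) else 0) =
      ∑ c ∈ W.image χ, (∑ x ∈ W, if χ x = c then (SignType.sign (l x) : ℤ) else 0) ^ 2 := by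
      have h2 : ∀ c ∈ W.image χ, (∑ x ∈ W, if χ x = c then (SignType.sign (l x) : ℤ) else 0) ^ 2 =
          ∑ s ∈ W ×ˢ W, (if χ s.1 = c then (SignType.sign (l s.1) : ℤ) else 0) *
            (if χ s.2 = c then (SignType.sign (l s.2) : ℤ) else 0) := by
        intro c _
        rw [sq, Finset.sum_mul_sum, Finset.sum_product]
      rw [Finset.sum_congr rfl h2, Finset.sum_comm]
      refine Finset.sum_congr rfl ?_
      intro s hs
      rw [Finset.mem_product] at hs
      by_cases hc : χ s.1 = χ s.2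
      · rw [if_pos hc, Finset.sum_eq_single (χ s.1)]
        · simp [hc]
        · intro c _ hc'
          rw [if_neg (Ne.symm hc')]
          simp
        · intro h
          exact absurd (Finset.mem_image_of_mem χ hs.1) h
      · rw [if_neg hc]
        symm
        apply Finset.sum_eq_zero
        intro c _
        by_cases h1 : χ s.1 = c
        · have h2 : χ s.2 ≠ c := fun h => hc (h1.trans h.symm)
          rw [if_neg h2, mul_zero]
        · rw [if_neg h1, zero_mul]
    rw [h1]
    exact Finset.sum_nonneg fun c _ => sq_nonneg _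
  -- split
  have hterm : ∀ s ∈ W ×ˢ W, (if χ s.1 = χ s.2 then
      ((SignType.sign (l s.1) : ℤ)) * (SignType.sign (l s.2) : ℤ) else 0) =
      (if χ s.1 = χ s.2 then (1 : ℤ) else 0) -
        2 * (if χ s.1 = χ s.2 ∧ l s.1 * l s.2 < 0 then (1 : ℤ) else 0) := by
    intro s hs
    rw [Finset.mem_product] at hs
    have hx := hl _ hs.1
    have hy := hl _ hs.2
    by_cases hc : χ s.1 = χ s.2
    · rcases lt_or_gt_of_ne hx with h1 | h1 <;> rcases lt_or_gt_of_ne hy with h2 | h2
      · have : ¬ (l s.1 * l s.2 < 0) := not_lt.2 (mul_pos_of_neg_of_neg h1 h2).le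
        simp [hc, sign_neg h1, sign_neg h2, this]
      · have : l s.1 * l s.2 < 0 := mul_neg_of_neg_of_pos h1 h2
        simp [hc, sign_neg h1, sign_pos h2, this]
      · have : l s.1 * l s.2 < 0 := mul_neg_of_pos_of_neg h1 h2
        simp [hc, sign_pos h1, sign_neg h2, this]
      · have : ¬ (l s.1 * l s.2 < 0) := not_lt.2 (mul_pos h1 h2).le
        simp [hc, sign_pos h1, sign_pos h2, this]
    · simp [hc]
  rw [Finset.sum_congr rfl hterm, Finset.sum_sub_distrib, ← Finset.mul_sum,
    ← Finset.natCast_card_filter, ← Finset.natCast_card_filter] at hpsd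
  have h5 : (W.offDiag.filter (fun s => χ s.1 = χ s.2 ∧ l s.1 * l s.2 < 0)).card ≤
      ((W ×ˢ W).filter (fun s => χ s.1 = χ s.2 ∧ l s.1 * l s.2 < 0)).card := by
    apply Finset.card_le_card
    intro s hs
    simp only [Finset.mem_filter, Finset.mem_offDiag, Finset.mem_product] at hs ⊢
    exact ⟨⟨hs.1.1, hs.1.2.1⟩, hs.2⟩
  have h6 : ((W ×ˢ W).filter (fun s => χ s.1 = χ s.2)).card ≤
      (W.offDiag.filter (fun s => χ s.1 = χ s.2)).card + W.card := by
    have h7 : ((W ×ˢ W).filter (fun s => χ s.1 = χ s.2)) ⊆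
        (W.offDiag.filter (fun s => χ s.1 = χ s.2)) ∪ W.diag := by
      intro s hs
      simp only [Finset.mem_filter, Finset.mem_product, Finset.mem_union, Finset.mem_offDiag,
        Finset.mem_diag] at hs ⊢
      by_cases h : s.1 = s.2
      · right; exact ⟨hs.1.1, h⟩
      · left; exact ⟨⟨hs.1.1, hs.1.2, h⟩, hs.2⟩
    calc _ ≤ _ := Finset.card_le_card h7
      _ ≤ _ := Finset.card_union_le _ _
      _ = _ := by rw [Finset.diag_card]
  have h8 : 2 * ((W ×ˢ W).filter (fun s => χ s.1 = χ s.2 ∧ l s.1 * l s.2 < 0)).card ≤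
      ((W ×ˢ W).filter (fun s => χ s.1 = χ s.2)).card := by
    have : (2 : ℤ) * ((W ×ˢ W).filter (fun s => χ s.1 = χ s.2 ∧ l s.1 * l s.2 < 0)).card ≤
      ((W ×ˢ W).filter (fun s => χ s.1 = χ s.2)).card := by linarith
    exact_mod_cast this
  omega

theorem ham1_choose (n d : ℕ) (hd : 1 ≤ d) (hn : d ≤ n) :
    d * ((d + 1) * n.choose (d + 1)) ≤ n.choose (d - 1) * n ^ 2 := by
  obtain ⟨e, rfl⟩ : ∃ e, d = e + 1 := ⟨d - 1, by omega⟩
  have h1 := Nat.choose_succ_right_eq n (e + 1)
  have h2 := Nat.choose_succ_right_eq n e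
  have h3 : (e + 1) * ((e + 1 + 1) * n.choose (e + 1 + 1)) = n.choose e * ((n - e) * (n - (e + 1))) := by
    calc (e + 1) * ((e + 1 + 1) * n.choose (e + 1 + 1))
        = (e + 1) * (n.choose (e + 1 + 1) * (e + 1 + 1)) := by ring
      _ = (e + 1) * (n.choose (e + 1) * (n - (e + 1))) := by rw [h1]
      _ = (n.choose (e + 1) * (e + 1)) * (n - (e + 1)) := by ring
      _ = n.choose e * (n - e) * (n - (e + 1)) := by rw [h2]
      _ = _ := by ring
  rw [h3]
  simp only [Nat.add_sub_cancel]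
  apply Nat.mul_le_mul_left
  rw [sq]
  exact Nat.mul_le_mul (Nat.sub_le _ _) (Nat.sub_le _ _)

open Classical in
theorem ham1 : HAM1 := by
  intro d hd κ X v χ hgp
  rcases Nat.lt_or_ge X.card d with hlt | hge
  · obtain ⟨f, hf0, hf⟩ := ham1_exists_f v X hlt
    refine ⟨f, hf0, ?_⟩
    have : TT X v χ f = 0 := by
      unfold TT
      rw [Finset.card_eq_zero, Finset.filter_eq_empty_iff]
      intro s hs hcon
      rw [Finset.mem_offDiag] at hs
      rw [hf s.1 hs.1, zero_mul] at hcon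
      exact lt_irrefl _ hcon.2
    rw [this]
    simp only [Nat.cast_zero, mul_zero]
    positivity
  -- general case
  have hFex : ∀ Z : Finset Pl, ∃ f : Fin d → ℝ, Z.card < d → (f ≠ 0 ∧ ∀ z ∈ Z, sp f (v z) = 0) := by
    intro Z
    by_cases h : Z.card < d
    · obtain ⟨f, hf⟩ := ham1_exists_f v Z h
      exact ⟨f, fun _ => hf⟩
    · exact ⟨0, fun h' => absurd h' h⟩
  choose F hF using hFex
  have hLex : ∀ W : Finset Pl, ∃ l : Pl → ℝ, (W ⊆ X ∧ W.card = d + 1) →
      ((∀ w ∈ W, l w ≠ 0) ∧ ∀ i, ∑ w ∈ W, l w * v w i = 0) := by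
    intro W
    by_cases h : W ⊆ X ∧ W.card = d + 1
    · obtain ⟨l, hl⟩ := ham1_exists_lam X v hgp W h.1 h.2
      exact ⟨l, fun _ => hl⟩
    · exact ⟨0, fun h' => absurd h' h⟩
  choose L hL using hLex
  set ZZ := X.powersetCard (d - 1) with hZZ
  set WW := X.powersetCard (d + 1) with hWW
  have hZcard : ZZ.card = X.card.choose (d - 1) := Finset.card_powersetCard _ _
  have hWcard : WW.card = X.card.choose (d + 1) := Finset.card_powersetCard _ _
  have hZpos : 0 < ZZ.card := by
    rw [hZcard]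
    exact Nat.choose_pos (by omega)
  -- step A
  have stepA : ∑ Z ∈ ZZ, TT X v χ (F Z) ≤ ∑ W ∈ WW,
      (W.offDiag.filter (fun s => χ s.1 = χ s.2 ∧ L W s.1 * L W s.2 < 0)).card := by
    have h1 : ∑ Z ∈ ZZ, TT X v χ (F Z) = ∑ s ∈ X.offDiag, (ZZ.filter (fun Z =>
        χ s.1 = χ s.2 ∧ 0 < sp (F Z) (v s.1) * sp (F Z) (v s.2))).card := by
      unfold TT
      simp only [Finset.card_filter]
      rw [Finset.sum_comm]
    have h2 : ∑ W ∈ WW,
      (W.offDiag.filter (fun s => χ s.1 = χ s.2 ∧ L W s.1 * L W s.2 < 0)).card =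
        ∑ s ∈ X.offDiag, (WW.filter (fun W => s.1 ∈ W ∧ s.2 ∈ W ∧
          χ s.1 = χ s.2 ∧ L W s.1 * L W s.2 < 0)).card := by
      have h3 : ∀ W ∈ WW, (W.offDiag.filter (fun s => χ s.1 = χ s.2 ∧ L W s.1 * L W s.2 < 0)).card
          = (X.offDiag.filter (fun s => s.1 ∈ W ∧ s.2 ∈ W ∧
          χ s.1 = χ s.2 ∧ L W s.1 * L W s.2 < 0)).card := by
        intro W hW
        rw [Finset.mem_powersetCard] at hW
        congr 1
        ext s
        simp only [Finset.mem_filter, Finset.mem_offDiag]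
        constructor
        · rintro ⟨⟨a, b, c⟩, e, g⟩
          exact ⟨⟨hW.1 a, hW.1 b, c⟩, a, b, e, g⟩
        · rintro ⟨⟨a, b, c⟩, a', b', e, g⟩
          exact ⟨⟨a', b', c⟩, e, g⟩
      rw [Finset.sum_congr rfl h3]
      simp only [Finset.card_filter]
      rw [Finset.sum_comm]
    rw [h1, h2]
    apply Finset.sum_le_sum
    intro s hs
    rw [Finset.mem_offDiag] at hs
    have hnot : ∀ Z ∈ (ZZ.filter (fun Z =>
        χ s.1 = χ s.2 ∧ 0 < sp (F Z) (v s.1) * sp (F Z) (v s.2))), s.1 ∉ Z ∧ s.2 ∉ Z ∧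
          Z ⊆ X ∧ Z.card = d - 1 ∧ χ s.1 = χ s.2 ∧ 0 < sp (F Z) (v s.1) * sp (F Z) (v s.2) := by
      intro Z hZ
      rw [Finset.mem_filter, hZZ, Finset.mem_powersetCard] at hZ
      obtain ⟨⟨hZX, hZc⟩, hc, hp⟩ := hZ
      have hFZ := (hF Z (by omega)).2
      refine ⟨?_, ?_, hZX, hZc, hc, hp⟩
      · intro h
        rw [hFZ _ h, zero_mul] at hp
        exact lt_irrefl _ hp
      · intro h
        rw [hFZ _ h, mul_zero] at hp
        exact lt_irrefl _ hp
    apply Finset.card_le_card_of_injOn (fun Z => insert s.1 (insert s.2 Z))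
    · intro Z hZ
      obtain ⟨h1, h2, hZX, hZc, hc, hp⟩ := hnot Z hZ
      have hsub : insert s.1 (insert s.2 Z) ⊆ X := by
        intro z hz
        simp only [Finset.mem_insert] at hz
        rcases hz with rfl | rfl | hz
        · exact hs.1
        · exact hs.2.1
        · exact hZX hz
      have hcard : (insert s.1 (insert s.2 Z)).card = d + 1 := by
        rw [Finset.card_insert_of_notMem, Finset.card_insert_of_notMem h2, hZc]
        · omega
        · simp only [Finset.mem_insert, not_or]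
          exact ⟨hs.2.2, h1⟩
      have hLW := hL _ ⟨hsub, hcard⟩
      simp only [Finset.coe_filter, Set.mem_ofPred_eq]
      refine ⟨?_, by simp, by simp, hc, ?_⟩
      · rw [hWW, Finset.mem_powersetCard]
        exact ⟨hsub, hcard⟩
      · refine ham1_sign v _ _ hLW.1 hLW.2 s.1 s.2 (by simp) (by simp) hs.2.2 (F Z) ?_ hp
        intro z hz hz1 hz2
        simp only [Finset.mem_insert] at hz
        rcases hz with hz | hz | hz
        · exact absurd hz hz1
        · exact absurd hz hz2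
        · exact (hF Z (by omega)).2 z hz
    · intro Z hZ Z' hZ' heq
      obtain ⟨h1, h2, -⟩ := hnot Z hZ
      obtain ⟨h1', h2', -⟩ := hnot Z' hZ'
      have e1 : Z = ((insert s.1 (insert s.2 Z)).erase s.1).erase s.2 := by
        rw [Finset.erase_insert, Finset.erase_insert h2]
        simp only [Finset.mem_insert, not_or]
        exact ⟨hs.2.2, h1⟩
      have e2 : Z' = ((insert s.1 (insert s.2 Z')).erase s.1).erase s.2 := by
        rw [Finset.erase_insert, Finset.erase_insert h2']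
        simp only [Finset.mem_insert, not_or]
        exact ⟨hs.2.2, h1'⟩
      rw [e1, e2]
      simp only at heq
      rw [heq]
  -- step B
  have stepB : ∑ W ∈ WW, 2 *
      (W.offDiag.filter (fun s => χ s.1 = χ s.2 ∧ L W s.1 * L W s.2 < 0)).card ≤
      ∑ W ∈ WW, ((W.offDiag.filter (fun s => χ s.1 = χ s.2)).card + (d + 1)) := by
    apply Finset.sum_le_sum
    intro W hW
    rw [hWW, Finset.mem_powersetCard] at hW
    have := ham1_opp W χ (L W) (hL W hW).1
    rw [hW.2] at this
    exact this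
  -- step C
  have stepC : ∑ W ∈ WW, (W.offDiag.filter (fun s => χ s.1 = χ s.2)).card ≤
      EE X χ * X.card.choose (d - 1) := by
    have h3 : ∀ W ∈ WW, (W.offDiag.filter (fun s => χ s.1 = χ s.2)).card
          = ∑ s ∈ X.offDiag.filter (fun s => χ s.1 = χ s.2), if (s.1 ∈ W ∧ s.2 ∈ W) then 1 else 0 := by
      intro W hW
      rw [hWW, Finset.mem_powersetCard] at hW
      rw [← Finset.card_filter]
      congr 1
      ext s
      simp only [Finset.mem_filter, Finset.mem_offDiag]
      constructor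
      · rintro ⟨⟨a, b, c⟩, e⟩
        exact ⟨⟨⟨hW.1 a, hW.1 b, c⟩, e⟩, a, b⟩
      · rintro ⟨⟨⟨a, b, c⟩, e⟩, a', b'⟩
        exact ⟨⟨a', b', c⟩, e⟩
    rw [Finset.sum_congr rfl h3, Finset.sum_comm]
    have h4 : ∀ s ∈ X.offDiag.filter (fun s => χ s.1 = χ s.2),
        (∑ W ∈ WW, if (s.1 ∈ W ∧ s.2 ∈ W) then 1 else 0) ≤ X.card.choose (d - 1) := by
      intro s hs
      rw [Finset.mem_filter, Finset.mem_offDiag] at hs
      rw [← Finset.card_filter, ← hZcard]
      apply Finset.card_le_card_of_injOn (fun W => (W.erase s.1).erase s.2)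
      · intro W hW
        simp only [Finset.coe_filter, Set.mem_ofPred_eq] at hW
        obtain ⟨hW, h1, h2⟩ := hW
        rw [hWW, Finset.mem_powersetCard] at hW
        simp only [hZZ, Finset.mem_coe, Finset.mem_powersetCard]
        refine ⟨((Finset.erase_subset _ _).trans (Finset.erase_subset _ _)).trans hW.1, ?_⟩
        rw [Finset.card_erase_of_mem, Finset.card_erase_of_mem h1, hW.2]
        · omega
        · exact Finset.mem_erase.2 ⟨Ne.symm hs.1.2.2, h2⟩
      · intro W hW W' hW' heq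
        simp only [Finset.coe_filter, Set.mem_ofPred_eq] at hW hW'
        have key : ∀ V : Finset Pl, s.1 ∈ V → s.2 ∈ V →
            V = insert s.1 (insert s.2 ((V.erase s.1).erase s.2)) := by
          intro V hV1 hV2
          rw [Finset.insert_erase (Finset.mem_erase.2 ⟨Ne.symm hs.1.2.2, hV2⟩),
            Finset.insert_erase hV1]
        rw [key W hW.2.1 hW.2.2, key W' hW'.2.1 hW'.2.2]
        simp only at heq
        rw [heq]
    calc _ ≤ ∑ s ∈ X.offDiag.filter (fun s => χ s.1 = χ s.2), X.card.choose (d - 1) :=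
          Finset.sum_le_sum h4
      _ = _ := by
        rw [Finset.sum_const, smul_eq_mul]
        rfl
  -- total
  have hchoose := ham1_choose X.card d hd hge
  have total : 2 * ∑ Z ∈ ZZ, TT X v χ (F Z) ≤
      EE X χ * X.card.choose (d - 1) + (d + 1) * X.card.choose (d + 1) := by
    have h1 : 2 * ∑ Z ∈ ZZ, TT X v χ (F Z) ≤ ∑ W ∈ WW, 2 *
      (W.offDiag.filter (fun s => χ s.1 = χ s.2 ∧ L W s.1 * L W s.2 < 0)).card := by
      rw [← Finset.mul_sum]
      exact Nat.mul_le_mul_left _ stepA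
    refine (h1.trans stepB).trans ?_
    rw [Finset.sum_add_distrib, Finset.sum_const, smul_eq_mul, hWcard]
    have : X.card.choose (d + 1) * (d + 1) = (d + 1) * X.card.choose (d + 1) := mul_comm _ _
    omega
  -- averaging
  by_contra hcon
  push Not at hcon
  have hall : ∀ Z ∈ ZZ, ((EE X χ : ℝ) + (X.card : ℝ) ^ 2 / d) < 2 * (TT X v χ (F Z) : ℝ) := by
    intro Z hZ
    rw [hZZ, Finset.mem_powersetCard] at hZ
    exact hcon (F Z) (hF Z (by omega)).1
  have hsum : ∑ Z ∈ ZZ, ((EE X χ : ℝ) + (X.card : ℝ) ^ 2 / d) <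
      ∑ Z ∈ ZZ, 2 * (TT X v χ (F Z) : ℝ) :=
    Finset.sum_lt_sum_of_nonempty (Finset.card_pos.1 hZpos) hall
  rw [Finset.sum_const, nsmul_eq_mul, ← Finset.mul_sum, hZcard] at hsum
  have total' : (2 : ℝ) * ∑ Z ∈ ZZ, (TT X v χ (F Z) : ℝ) ≤
      EE X χ * X.card.choose (d - 1) + (d + 1) * X.card.choose (d + 1) := by
    exact_mod_cast total
  have hchoose' : (d : ℝ) * ((d + 1) * X.card.choose (d + 1)) ≤
      X.card.choose (d - 1) * (X.card : ℝ) ^ 2 := by
    exact_mod_cast hchoose
  have hdpos : (0 : ℝ) < d := by exact_mod_cast hd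
  have h9 : ((d : ℝ) + 1) * X.card.choose (d + 1) ≤
      X.card.choose (d - 1) * ((X.card : ℝ) ^ 2 / d) := by
    rw [← mul_div_assoc, le_div_iff₀ hdpos]
    linarith
  have h10 : (X.card.choose (d - 1) : ℝ) * ((EE X χ : ℝ) + (X.card : ℝ) ^ 2 / d) =
      EE X χ * X.card.choose (d - 1) + X.card.choose (d - 1) * ((X.card : ℝ) ^ 2 / d) := by ring
  linarith

end Pool.Agent.H62.Per
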