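import Mathlib
import Pool.Agent.H62.Per.Defs
import Pool.Agent.H95.Per.Ham1

/-! Module HAM2 of MP_588c6d_co (distinct perimeters): splitting lemma in general, by perturbation
and compactness. -/

set_option autoImplicit false

open Finset Filter Topology

namespace Pool.Agent.H62.Per

/-- for all but finitely many `ε` the perturbed vectors of `S` are independent -/
theorem ham2_finite {d : ℕ} (X S : Finset Pl) (hSX : S ⊆ X) (hS : S.card = d)
    (v : Pl → Fin d → ℝ) (τ : Pl → ℝ) (hτ : Set.InjOn τ X) :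
    ∃ R : Finset ℝ, ∀ ε : ℝ, ε ∉ R →
      LinearIndependent ℝ (fun s : S => v s + ε • (fun i : Fin d => τ s ^ (i : ℕ))) := by
  classical
  let e : Fin d ≃ S := (finCongr hS.symm).trans S.equivFin.symm
  let A : Matrix (Fin d) (Fin d) ℝ := Matrix.vandermonde (fun i => τ (e i))
  let B : Matrix (Fin d) (Fin d) ℝ := Matrix.of (fun i => v (e i))
  have hA : A.det ≠ 0 := by
    rw [Matrix.det_vandermonde_ne_zero_iff]
    intro i j hij
    have := hτ (hSX (e i).2) (hSX (e j).2) hij
    exact e.injective (Subtype.ext this)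
  let p : Polynomial ℝ := Matrix.det ((Polynomial.X : Polynomial ℝ) • A.map Polynomial.C +
    B.map Polynomial.C)
  have hp : p ≠ 0 := by
    intro h0
    have := Polynomial.coeff_det_X_add_C_card A B
    change p.coeff _ = _ at this
    rw [h0, Polynomial.coeff_zero] at this
    exact hA this.symm
  refine ⟨p.roots.toFinset, ?_⟩
  intro ε hε
  have hev : p.eval ε ≠ 0 := by
    intro h
    apply hε
    rw [Multiset.mem_toFinset, Polynomial.mem_roots hp]
    exact h
  have hdet : (Matrix.of (fun i : Fin d => v (e i) + ε • (fun j : Fin d => τ (e i) ^ (j : ℕ)))).det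
      ≠ 0 := by
    have h1 : p.eval ε = (Matrix.of (fun i : Fin d => v (e i) +
        ε • (fun j : Fin d => τ (e i) ^ (j : ℕ)))).det := by
      change (Polynomial.evalRingHom ε) p = _
      rw [RingHom.map_det]
      congr 1
      ext i j
      simp [A, B, Matrix.vandermonde_apply]
      ring
    rw [← h1]
    exact hev
  have hli := Matrix.linearIndependent_rows_of_det_ne_zero hdet
  rw [← linearIndependent_equiv e]
  exact hli

open Classical in
theorem ham2 : HAM := by
  intro d hd κ X v χ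
  -- an injective parameter
  let τ : Pl → ℝ := fun x => if h : x ∈ X then ((X.equivFin ⟨x, h⟩ : ℕ) : ℝ) else 0
  have hτ : Set.InjOn τ X := by
    intro x hx y hy hxy
    have hx' : x ∈ X := hx
    have hy' : y ∈ X := hy
    simp only [τ, hx', hy', dif_pos, Nat.cast_inj] at hxy
    have := X.equivFin.injective (Fin.ext hxy)
    exact congrArg Subtype.val this
  -- finite exceptional set
  have hR : ∃ R : Finset ℝ, ∀ ε : ℝ, ε ∉ R → ∀ S ⊆ X, S.card = d →
      LinearIndependent ℝ (fun s : S => v s + ε • (fun i : Fin d => τ s ^ (i : ℕ))) := by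
    have h1 : ∀ S : Finset Pl, ∃ R : Finset ℝ, (S ⊆ X ∧ S.card = d) → ∀ ε : ℝ, ε ∉ R →
      LinearIndependent ℝ (fun s : S => v s + ε • (fun i : Fin d => τ s ^ (i : ℕ))) := by
      intro S
      by_cases h : S ⊆ X ∧ S.card = d
      · obtain ⟨R, hR⟩ := ham2_finite X S h.1 h.2 v τ hτ
        exact ⟨R, fun _ => hR⟩
      · exact ⟨∅, fun h' => absurd h' h⟩
    choose R hR using h1
    refine ⟨X.powerset.biUnion R, ?_⟩
    intro ε hε S hSX hS
    apply hR S ⟨hSX, hS⟩ ε
    intro h
    apply hε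
    rw [Finset.mem_biUnion]
    exact ⟨S, Finset.mem_powerset.2 hSX, h⟩
  obtain ⟨R, hR⟩ := hR
  -- a sequence tending to zero outside R
  have hev : ∀ᶠ ε in 𝓝[>] (0 : ℝ), ε ∉ R := by
    have h1 : ∀ᶠ ε in 𝓝[≠] (0 : ℝ), ε ∉ R := by
      have h2 : Set.Finite (R : Set ℝ) := R.finite_toSet
      have h3 : ∀ᶠ ε in 𝓝 (0 : ℝ), ε ∉ ((R : Set ℝ) \ {0}) := by
        have h4 : IsClosed ((R : Set ℝ) \ {0}) := (h2.subset Set.sdiff_subset).isClosed
        exact h4.isOpen_compl.mem_nhds (by simp)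
      rw [eventually_nhdsWithin_iff]
      filter_upwards [h3] with ε hε hne hmem
      exact hε ⟨hmem, hne⟩
    exact h1.filter_mono (nhdsWithin_mono _ (fun x hx => ne_of_gt hx))
  have hseq : Tendsto (fun n : ℕ => 1 / ((n : ℝ) + 1)) atTop (𝓝[>] (0 : ℝ)) := by
    rw [tendsto_nhdsWithin_iff]
    refine ⟨tendsto_one_div_add_atTop_nhds_zero_nat, ?_⟩
    filter_upwards with n
    have : (0 : ℝ) < 1 / ((n : ℝ) + 1) := by positivity
    exact this
  obtain ⟨N, hN⟩ := (hseq.eventually hev).exists_forall_of_atTop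
  let ε : ℕ → ℝ := fun n => 1 / (((n + N : ℕ) : ℝ) + 1)
  have hεR : ∀ n, ε n ∉ R := fun n => hN (n + N) (by omega)
  have hε0 : Tendsto ε atTop (𝓝 0) :=
    (tendsto_one_div_add_atTop_nhds_zero_nat (𝕜 := ℝ)).comp (tendsto_add_atTop_nat N)
  let w : ℕ → Pl → Fin d → ℝ := fun n x => v x + ε n • (fun i : Fin d => τ x ^ (i : ℕ))
  have hf : ∀ n, ∃ f : Fin d → ℝ, ‖f‖ = 1 ∧
      2 * (TT X (w n) χ f : ℝ) ≤ EE X χ + (X.card : ℝ) ^ 2 / d := by
    intro n
    obtain ⟨f, hf0, hf⟩ := ham1 d hd κ X (w n) χ (fun S hSX hS => hR (ε n) (hεR n) S hSX hS)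
    have hnorm : 0 < ‖f‖ := norm_pos_iff.2 hf0
    refine ⟨‖f‖⁻¹ • f, ?_, ?_⟩
    · rw [norm_smul, norm_inv, norm_norm, inv_mul_cancel₀ hnorm.ne']
    · have : TT X (w n) χ (‖f‖⁻¹ • f) = TT X (w n) χ f := by
        unfold TT
        congr 1
        apply Finset.filter_congr
        intro s _
        have hsp : ∀ y, sp (‖f‖⁻¹ • f) y = ‖f‖⁻¹ * sp f y := by
          intro y
          simp [sp, Finset.mul_sum, mul_assoc]
        rw [hsp, hsp]
        have h2 : ‖f‖⁻¹ * sp f (w n s.1) * (‖f‖⁻¹ * sp f (w n s.2)) =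
            (‖f‖⁻¹) ^ 2 * (sp f (w n s.1) * sp f (w n s.2)) := by ring
        rw [h2, mul_pos_iff_of_pos_left (by positivity)]
      rw [this]
      exact hf
  choose f hf1 hf2 using hf
  obtain ⟨g, hg, φ, hφ, hlim⟩ := (isCompact_sphere (0 : Fin d → ℝ) 1).tendsto_subseq
    (x := f) (fun n => by simpa using hf1 n)
  refine ⟨g, ?_, ?_⟩
  · intro h
    rw [h] at hg
    simp at hg
  · have hcont : ∀ y : Pl, Tendsto (fun n => sp (f (φ n)) (w (φ n) y)) atTop (𝓝 (sp g (v y))) := by
      intro y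
      unfold sp
      apply tendsto_finsetSum
      intro i _
      apply Tendsto.mul
      · exact (tendsto_pi_nhds.1 hlim) i
      · have h1 : Tendsto (fun n => v y i + ε (φ n) * τ y ^ (i : ℕ)) atTop
            (𝓝 (v y i + 0 * τ y ^ (i : ℕ))) :=
          tendsto_const_nhds.add ((hε0.comp hφ.tendsto_atTop).mul_const _)
        simpa [w] using h1
    have hall : ∀ᶠ n in atTop, ∀ s ∈ X.offDiag, 0 < sp g (v s.1) * sp g (v s.2) →
        0 < sp (f (φ n)) (w (φ n) s.1) * sp (f (φ n)) (w (φ n) s.2) := by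
      rw [Filter.eventually_all_finset]
      intro s _
      by_cases h : 0 < sp g (v s.1) * sp g (v s.2)
      · filter_upwards [((hcont s.1).mul (hcont s.2)).eventually (lt_mem_nhds h)] with n hn _
        exact hn
      · exact Eventually.of_forall fun n h' => absurd h' h
    obtain ⟨n, hn⟩ := hall.exists
    have hTT : TT X v χ g ≤ TT X (w (φ n)) χ (f (φ n)) := by
      unfold TT
      apply Finset.card_le_card
      intro s hs
      rw [Finset.mem_filter] at hs ⊢
      exact ⟨hs.1, hs.2.1, hn s hs.1 hs.2.2⟩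
    have hTT' : (TT X v χ g : ℝ) ≤ TT X (w (φ n)) χ (f (φ n)) := by exact_mod_cast hTT
    have := hf2 (φ n)
    linarith

end Pool.Agent.H62.Per
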